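import Mathlib

/-!
# A Lucas sequence argument
-/

namespace Pool.Agent.Helper20.DS

/-- the sequence `0, 1, U, U^2 + 1, ...` -/
def F (U : ℤ) : ℕ → ℤ
  | 0 => 0
  | 1 => 1
  | (n + 2) => U * F U (n + 1) + F U n

theorem F_succ_succ (U : ℤ) (n : ℕ) : F U (n + 2) = U * F U (n + 1) + F U n := rfl

theorem F_cassini (U : ℤ) (n : ℕ) :
    F U (n + 1) * F U (n + 1) - U * F U (n + 1) * F U n - F U n * F U n = (-1) ^ n := by
  induction n with
  | zero => simp [F]
  | succ n ih =>
    rw [F_succ_succ, pow_succ, ← ih]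
    ring

theorem F_add (U : ℤ) (m n : ℕ) :
    F U (m + n + 1) = F U (m + 1) * F U (n + 1) + F U m * F U n := by
  induction n using Nat.strong_induction_on with
  | _ n ih =>
    match n with
    | 0 => simp [F]
    | 1 =>
      show F U (m + 2) = _
      rw [F_succ_succ]
      simp [F]
      ring
    | (n + 2) =>
      have h1 := ih (n + 1) (by omega)
      have h2 := ih n (by omega)
      have h3 : F U (m + (n + 2) + 1) = U * F U (m + (n + 1) + 1) + F U (m + n + 1) := rfl
      rw [h3, h1, h2, F_succ_succ U (n + 1), F_succ_succ U n]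
      ring

theorem F_nonneg {U : ℤ} (hU : 0 ≤ U) (n : ℕ) : 0 ≤ F U n ∧ 0 ≤ F U (n + 1) := by
  induction n with
  | zero => simp [F]
  | succ n ih =>
    refine ⟨ih.2, ?_⟩
    rw [F_succ_succ]
    have := mul_nonneg hU ih.2
    linarith [ih.1]

theorem F_pos {U : ℤ} (hU : 1 ≤ U) (n : ℕ) : 1 ≤ F U (n + 1) := by
  induction n using Nat.strong_induction_on with
  | _ n ih =>
    match n with
    | 0 => simp [F]
    | (n + 1) =>
      rw [F_succ_succ]
      have h1 := ih n (by omega)
      have h2 := (F_nonneg (by linarith : (0 : ℤ) ≤ U) n).1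
      nlinarith

/-- parity pattern: `F` at even indices is divisible by 4, at odd indices odd -/
theorem F_parity {U : ℤ} (hU : (4 : ℤ) ∣ U) (n : ℕ) :
    (4 : ℤ) ∣ F U (2 * n) ∧ Odd (F U (2 * n + 1)) := by
  induction n with
  | zero => simp [F]
  | succ n ih =>
    have h1 : F U (2 * (n + 1)) = U * F U (2 * n + 1) + F U (2 * n) := rfl
    have h2 : F U (2 * (n + 1) + 1) = U * F U (2 * (n + 1)) + F U (2 * n + 1) := rfl
    refine ⟨?_, ?_⟩
    · rw [h1]
      exact dvd_add (hU.mul_right _) ih.1
    · rw [h2]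
      refine Even.add_odd ?_ ih.2
      obtain ⟨c, hc⟩ := hU
      exact ⟨2 * c * F U (2 * (n + 1)), by rw [hc]; ring⟩

/-- descent -/
theorem descent {U : ℤ} (hU : 4 ≤ U) : ∀ n S P : ℕ, S ≤ n → 0 < P →
    ((P : ℤ) * P - U * P * S - S * S = 1 ∨ (P : ℤ) * P - U * P * S - S * S = -1) →
    ∃ k, (S : ℤ) = F U k ∧ (P : ℤ) = F U (k + 1) := by
  intro n
  induction n with
  | zero =>
    intro S P hS hP h
    have hS0 : S = 0 := by omega
    subst hS0
    refine ⟨0, by simp [F], ?_⟩
    simp only [Nat.cast_zero, mul_zero, sub_zero, zero_add] at h ⊢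
    have hP1 : (1 : ℤ) ≤ P := by exact_mod_cast hP
    rcases h with h | h
    · have : (P : ℤ) = 1 := by nlinarith
      simpa [F] using this
    · nlinarith
  | succ n ih =>
    intro S P hS hP h
    rcases Nat.lt_or_ge S (n + 1) with h1 | h1
    · exact ih S P (by omega) hP h
    have hS1 : (1 : ℤ) ≤ S := by exact_mod_cast (by omega : 1 ≤ S)
    have hP1 : (1 : ℤ) ≤ P := by exact_mod_cast hP
    set R : ℤ := P - U * S with hR
    have hPR : (P : ℤ) * R = S * S + ((P : ℤ) * P - U * P * S - S * S) := by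
      rw [hR]
      ring
    have hR0 : 0 ≤ R := by
      by_contra hneg
      push Not at hneg
      have h2 : (P : ℤ) * R ≤ -1 := by nlinarith
      rcases h with h | h <;> rw [h] at hPR <;> nlinarith
    have hRS : R < S := by
      by_contra hge
      push Not at hge
      have h2 : (5 : ℤ) * S ≤ P := by
        have : (P : ℤ) = U * S + R := by rw [hR]; ring
        rw [this]
        nlinarith
      have h3 : (5 : ℤ) * S * S ≤ P * R := by nlinarith
      rcases h with h | h <;> rw [h] at hPR <;> nlinarith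
    obtain ⟨R', hR'⟩ : ∃ R' : ℕ, (R' : ℤ) = R := ⟨R.toNat, Int.toNat_of_nonneg hR0⟩
    have h4 : (S : ℤ) * S - U * S * R' - R' * R' = -((P : ℤ) * P - U * P * S - S * S) := by
      have : (P : ℤ) = U * S + R' := by rw [hR', hR]; ring
      rw [this]
      ring
    have h5 : R' ≤ n := by
      have : (R' : ℤ) < S := by rw [hR']; exact hRS
      have : R' < S := by exact_mod_cast this
      omega
    obtain ⟨k, hk1, hk2⟩ := ih R' S h5 (by omega) (by
      rcases h with h | h
      · right
        rw [h4, h]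
      · left
        rw [h4, h]
        ring)
    refine ⟨k + 1, hk2, ?_⟩
    rw [F_succ_succ, ← hk2, ← hk1, hR', hR]
    ring

/-- the companion sequence -/
def L (U : ℤ) (n : ℕ) : ℤ := 2 * F U (n + 1) - U * F U n

theorem L_succ_succ (U : ℤ) (n : ℕ) : L U (n + 2) = U * L U (n + 1) + L U n := by
  simp only [L, F_succ_succ]
  ring

theorem L_bezout (U : ℤ) (n : ℕ) : ∃ s t : ℤ, s * L U n + t * L U (n + 1) = 2 := by
  induction n with
  | zero => exact ⟨1, 0, by simp [L, F]⟩
  | succ n ih =>
    obtain ⟨s, t, h⟩ := ih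
    refine ⟨t - s * U, s, ?_⟩
    rw [L_succ_succ]
    linear_combination h

theorem F_coprime (U : ℤ) (n : ℕ) : IsCoprime (F U n) (F U (n + 1)) := by
  induction n with
  | zero => simp [F, isCoprime_one_right]
  | succ n ih =>
    rw [F_succ_succ]
    obtain ⟨a, b, h⟩ := ih
    exact ⟨b - a * U, a, by linear_combination h⟩

/-- parity contradiction -/
theorem parity_contra {p f x M : ℤ} (hp : Odd p) (h1 : p + 1 = x * f) (h2 : M = (p - 1) * f)
    (hx : Odd x) (hM : M % 8 = 4) : False := by
  have hfe : Even f := by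
    have : Even (x * f) := by
      rw [← h1]
      exact hp.add_one
    rcases Int.even_mul.1 this with h | h
    · exact absurd h (Int.not_even_iff_odd.2 hx)
    · exact h
  obtain ⟨g, hg⟩ := hfe
  obtain ⟨q, hq⟩ := hp
  subst hq
  obtain ⟨x', hx'⟩ := hx
  subst hx'
  have h3 : M = 4 * (q * g) := by
    rw [h2, hg]
    ring
  have h4 : Odd (q * g) := by
    rw [h3] at hM
    rw [Int.odd_iff]
    omega
  obtain ⟨hq1, hg1⟩ := Int.odd_mul.1 h4
  obtain ⟨a, ha⟩ := hq1
  obtain ⟨b, hb⟩ := hg1
  have h5 : q + 1 = (2 * x' + 1) * g := by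
    have : 2 * (q + 1) = 2 * ((2 * x' + 1) * g) := by
      have h6 : 2 * q + 1 + 1 = (2 * x' + 1) * (g + g) := by rw [← hg]; exact h1
      linarith
    linarith
  subst ha hb
  have h6 : (2 * a + 2 : ℤ) = 2 * (2 * x' * b + x' + b) + 1 := by linarith
  omega

/-- the case `r = 4`, `t = 2` is impossible -/
theorem lucas_excl {p Y Z : ℕ} {u : ℤ} (hp : p.Prime) (hp2 : p ≠ 2) (hY : 0 < Y) (hZ : 0 < Z)
    (hYZ : Y + Z = p ^ 2) (hu : Odd u) (h : 4 * u * Y * Z = (Z - Y) * (p : ℤ) ^ 2 + 1)
    (hpZ : (p - 1) ∣ Z) : False := by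
  have hp3 : 3 ≤ p := by
    have := hp.two_le
    omega
  have hpodd : Odd (p : ℤ) := by exact_mod_cast hp.odd_of_ne_two hp2
  have hQ : (Y : ℤ) + Z = (p : ℤ) ^ 2 := by exact_mod_cast hYZ
  have hY1 : (1 : ℤ) ≤ Y := by exact_mod_cast hY
  have hZ1 : (1 : ℤ) ≤ Z := by exact_mod_cast hZ
  have hpZ' : (p : ℤ) - 1 ∣ Z := by
    have h1 : ((p - 1 : ℕ) : ℤ) = (p : ℤ) - 1 := by
      rw [Nat.cast_sub hp.one_le]
      simp
    rw [← h1]
    exact_mod_cast hpZ
  have hpY' : (p : ℤ) - 1 ∣ Y - 1 := by
    have h1 : (Y : ℤ) - 1 = (p - 1) * (p + 1) - Z := by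
      have : (Y : ℤ) = (p : ℤ) ^ 2 - Z := by linarith
      rw [this]
      ring
    rw [h1]
    exact dvd_sub (Dvd.intro _ rfl) hpZ'
  have hp1pos : (0 : ℤ) < (p : ℤ) - 1 := by
    have : (3 : ℤ) ≤ p := by exact_mod_cast hp3
    linarith
  have heq : 4 * u * Y * Z = Z * Z - Y * Y + 1 := by
    rw [h, ← hQ]
    ring
  -- common part
  have common : ∀ (U : ℤ) (i : ℕ), 4 ≤ U → U % 8 = 4 → (Z : ℤ) = F U (2 * i + 2) →
      ((Y : ℤ) = F U (2 * i + 1) ∨ (Y : ℤ) = F U (2 * i + 3)) → False := by
    intro U i hU4 hU8 hZF hYF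
    set a := F U i with ha
    set b := F U (i + 1) with hb
    have hb1 : 1 ≤ b := F_pos (by linarith) i
    have ha0 : 0 ≤ a := (F_nonneg (by linarith) i).1
    have hc : F U (i + 2) = U * b + a := rfl
    have hZ' : (Z : ℤ) = b * (U * b + 2 * a) := by
      have h1 : 2 * i + 2 = (i + 1) + i + 1 := by ring
      rw [hZF, h1, F_add]
      show F U (i + 2) * b + b * a = _
      rw [hc]
      ring
    have hL1 : L U (i + 1) = U * b + 2 * a := by
      simp only [L]
      show 2 * F U (i + 2) - U * b = _
      rw [hc]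
      ring
    have hL0 : L U i = 2 * b - U * a := rfl
    have hL2 : L U (i + 2) = U * (U * b + a) + 2 * b := by
      rw [L_succ_succ, hL1, hL0]
      ring
    have hcas : b * b - U * b * a - a * a = (-1) ^ i := F_cassini U i
    have h4U : (4 : ℤ) ∣ U := by omega
    rcases Nat.even_or_odd i with ⟨m, hm⟩ | ⟨m, hm⟩
    · -- i even
      have hs : (-1 : ℤ) ^ i = 1 := by
        rw [hm, ← two_mul, pow_mul]
        simp
      rw [hs] at hcas
      have hpar := F_parity h4U m
      have ha4 : (4 : ℤ) ∣ a := by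
        rw [ha, hm, ← two_mul]
        exact hpar.1
      have hbo : Odd b := by
        rw [hb, hm, ← two_mul]
        exact hpar.2
      have hLmod : (U * b + 2 * a) % 8 = 4 := by
        obtain ⟨a', ha'⟩ := ha4
        obtain ⟨b', hb'⟩ := hbo
        obtain ⟨U', hU'⟩ := h4U
        have hU'odd : U' % 2 = 1 := by omega
        rw [ha', hb', hU']
        obtain ⟨U'', hU''⟩ : ∃ U'', U' = 2 * U'' + 1 := ⟨U' / 2, by omega⟩
        rw [hU'']
        have : 4 * (2 * U'' + 1) * (2 * b' + 1) + 2 * (4 * a') =
            4 + 8 * (2 * U'' * b' + U'' + b' + a') := by ring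
        rw [this]
        omega
      rcases hYF with hYF | hYF
      · have hY' : (Y : ℤ) - 1 = a * (U * b + 2 * a) := by
          have h1 : 2 * i + 1 = i + i + 1 := by ring
          rw [hYF, h1, F_add, ← hcas]
          show b * b + a * a - _ = _
          ring
        have hg : (p : ℤ) - 1 ∣ U * b + 2 * a := by
          obtain ⟨s, t, hst⟩ := F_coprime U i
          have : U * b + 2 * a = s * (a * (U * b + 2 * a)) + t * (b * (U * b + 2 * a)) := by
            linear_combination -(U * b + 2 * a) * hst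
          rw [this, ← hY', ← hZ']
          exact dvd_add (hpY'.mul_left _) (hpZ'.mul_left _)
        obtain ⟨f, hf⟩ := hg
        have h3 : ((p : ℤ) - 1) * (p + 1) = (p - 1) * ((a + b) * f) := by
          have : ((p : ℤ) - 1) * (p + 1) = (Y - 1) + Z := by
            have : (p : ℤ) ^ 2 = Y + Z := hQ.symm
            linear_combination this
          rw [this, hY', hZ', hf]
          ring
        have h4 : (p : ℤ) + 1 = (a + b) * f := mul_left_cancel₀ hp1pos.ne' h3
        refine parity_contra hpodd h4 hf ?_ hLmod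
        obtain ⟨a', ha'⟩ := ha4
        refine Even.add_odd ⟨2 * a', ?_⟩ hbo
        rw [ha']
        ring
      · have hY' : (Y : ℤ) - 1 = (U * b + a) * (U * b + 2 * a) := by
          have h1 : 2 * i + 3 = (i + 1) + (i + 1) + 1 := by ring
          rw [hYF, h1, F_add, ← hcas]
          show F U (i + 2) * F U (i + 2) + b * b - _ = _
          rw [hc]
          ring
        have hg : (p : ℤ) - 1 ∣ U * b + 2 * a := by
          obtain ⟨s, t, hst⟩ := F_coprime U (i + 1)
          have hst' : s * b + t * (U * b + a) = 1 := hst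
          have : U * b + 2 * a = s * (b * (U * b + 2 * a)) + t * ((U * b + a) * (U * b + 2 * a)) := by
            linear_combination -(U * b + 2 * a) * hst'
          rw [this, ← hY', ← hZ']
          exact dvd_add (hpZ'.mul_left _) (hpY'.mul_left _)
        obtain ⟨f, hf⟩ := hg
        have h3 : ((p : ℤ) - 1) * (p + 1) = (p - 1) * ((U * b + a + b) * f) := by
          have : ((p : ℤ) - 1) * (p + 1) = (Y - 1) + Z := by
            have : (p : ℤ) ^ 2 = Y + Z := hQ.symm
            linear_combination this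
          rw [this, hY', hZ', hf]
          ring
        have h4 : (p : ℤ) + 1 = (U * b + a + b) * f := mul_left_cancel₀ hp1pos.ne' h3
        refine parity_contra hpodd h4 hf ?_ hLmod
        obtain ⟨a', ha'⟩ := ha4
        obtain ⟨U', hU'⟩ := h4U
        refine Even.add_odd ⟨2 * U' * b + 2 * a', ?_⟩ hbo
        rw [ha', hU']
        ring
    · -- i odd
      have hs : (-1 : ℤ) ^ i = -1 := by
        rw [hm, pow_succ, pow_mul]
        simp
      rw [hs] at hcas
      have ha1 : 1 ≤ a := by
        rw [ha, hm]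
        exact F_pos (by linarith) _
      have hb4 : 4 ≤ b := by
        have h1 : b = U * F U (2 * m + 1) + F U (2 * m) := by
          rw [hb, hm]
          rfl
        have h2 := F_pos (by linarith : (1 : ℤ) ≤ U) (2 * m)
        have h3 := (F_nonneg (by linarith : (0 : ℤ) ≤ U) (2 * m)).1
        rw [h1]
        nlinarith
      have hfin : (p : ℤ) - 1 ∣ 2 * b → False := by
        intro hd
        have h1 := Int.le_of_dvd (by linarith) hd
        have h2 : (p : ℤ) ^ 2 ≤ (2 * b + 1) * (2 * b + 1) := by nlinarith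
        rw [← hQ, hZ'] at h2
        rcases hYF with hYF | hYF
        · have hY' : (Y : ℤ) = b * b + a * a := by
            have h1 : 2 * i + 1 = i + i + 1 := by ring
            rw [hYF, h1, F_add]
          rw [hY'] at h2
          nlinarith
        · have hY' : (Y : ℤ) = (U * b + a) * (U * b + a) + b * b := by
            have h1 : 2 * i + 3 = (i + 1) + (i + 1) + 1 := by ring
            rw [hYF, h1, F_add]
            rfl
          rw [hY'] at h2
          have h5 : 4 * b ≤ U * b + a := by nlinarith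
          nlinarith
      rcases hYF with hYF | hYF
      · have hY' : (Y : ℤ) - 1 = b * L U i := by
          have h1 : 2 * i + 1 = i + i + 1 := by ring
          rw [hYF, h1, F_add, hL0]
          show b * b + a * a - _ = _
          linear_combination -hcas
        apply hfin
        obtain ⟨s, t, hst⟩ := L_bezout U i
        have : 2 * b = s * (b * L U i) + t * (b * (U * b + 2 * a)) := by
          rw [hL1] at hst
          linear_combination -b * hst
        rw [this, ← hY', ← hZ']
        exact dvd_add (hpY'.mul_left _) (hpZ'.mul_left _)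
      · have hY' : (Y : ℤ) - 1 = b * L U (i + 2) := by
          have h1 : 2 * i + 3 = (i + 1) + (i + 1) + 1 := by ring
          rw [hYF, h1, F_add, hL2]
          show F U (i + 2) * F U (i + 2) + b * b - _ = _
          rw [hc]
          linear_combination -hcas
        apply hfin
        obtain ⟨s, t, hst⟩ := L_bezout U (i + 1)
        have : 2 * b = s * (b * (U * b + 2 * a)) + t * (b * L U (i + 2)) := by
          have hst' : s * L U (i + 1) + t * L U (i + 2) = 2 := hst
          rw [hL1] at hst'
          linear_combination -b * hst'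
        rw [this, ← hY', ← hZ']
        exact dvd_add (hpZ'.mul_left _) (hpY'.mul_left _)
  have hu0 : u ≠ 0 := by
    rintro rfl
    exact absurd hu (by decide)
  obtain ⟨v, hv⟩ := hu
  rcases lt_or_gt_of_ne hu0 with h1 | h1
  · -- u < 0
    have hU4 : (4 : ℤ) ≤ -(4 * u) := by omega
    have hU8 : (-(4 * u)) % 8 = 4 := by omega
    have h2 : (Y : ℤ) * Y - (-(4 * u)) * Y * Z - Z * Z = 1 := by linear_combination heq
    obtain ⟨k, hk1, hk2⟩ := descent hU4 Z Z Y le_rfl hY (Or.inl h2)
    have h3 : (-1 : ℤ) ^ k = 1 := by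
      rw [← F_cassini (-(4 * u)) k, ← hk1, ← hk2]
      exact h2
    rcases Nat.even_or_odd k with ⟨j, hj⟩ | hj
    · rcases Nat.eq_zero_or_pos j with h0 | h0
      · subst h0
        rw [hj] at hk1
        simp [F] at hk1
        omega
      · obtain ⟨i, rfl⟩ : ∃ i, j = i + 1 := ⟨j - 1, by omega⟩
        refine common _ i hU4 hU8 ?_ (Or.inr ?_)
        · rw [hk1, hj]
          congr 1
          ring
        · rw [hk2, hj]
          congr 1
          ring
    · rw [hj.neg_one_pow] at h3
      norm_num at h3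
  · have hU4 : (4 : ℤ) ≤ 4 * u := by omega
    have hU8 : (4 * u) % 8 = 4 := by omega
    have h2 : (Z : ℤ) * Z - (4 * u) * Z * Y - Y * Y = -1 := by linear_combination -heq
    obtain ⟨k, hk1, hk2⟩ := descent hU4 Y Y Z le_rfl hZ (Or.inr h2)
    have h3 : (-1 : ℤ) ^ k = -1 := by
      rw [← F_cassini (4 * u) k, ← hk1, ← hk2]
      exact h2
    rcases Nat.even_or_odd k with hj | ⟨j, hj⟩
    · rw [hj.neg_one_pow] at h3
      norm_num at h3
    · refine common _ j hU4 hU8 ?_ (Or.inl ?_)
      · rw [hk2, hj]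
      · rw [hk1, hj]

end Pool.Agent.Helper20.DS
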