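import Mathlib

/-!
# Number theory for difference sets with multiplier -1
-/

namespace Pool.Agent.Helper20.DS

/-- the basic equation has coprime solutions only -/
theorem coprime_of_eq {p r t i Y Z : ℕ} (hp : p.Prime) (hp2 : p ≠ 2) (hr : 1 ≤ r)
    (hYZ : Y + Z = p ^ t) (heq : 2 ^ i * Y * Z + 2 * Y = p ^ t * (p ^ r + 1)) :
    0 < Y ∧ 0 < Z ∧ 1 ≤ t ∧ ¬ p ∣ Y := by
  have hp1 : 1 < p := hp.one_lt
  have hp3 : 3 ≤ p := by
    rcases Nat.lt_or_ge p 3 with h | h
    · omega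
    · exact h
  have hpt : 0 < p ^ t := pow_pos hp.pos t
  have hpr : 3 ≤ p ^ r := by
    calc 3 ≤ p := hp3
      _ = p ^ 1 := (pow_one p).symm
      _ ≤ p ^ r := Nat.pow_le_pow_right hp.pos hr
  have hY : 0 < Y := by
    rcases Nat.eq_zero_or_pos Y with h | h
    · subst h
      have : 0 < p ^ t * (p ^ r + 1) := by positivity
      omega
    · exact h
  have hZ : 0 < Z := by
    rcases Nat.eq_zero_or_pos Z with h | h
    · subst h
      have : Y = p ^ t := by omega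
      subst this
      nlinarith
    · exact h
  have ht : 1 ≤ t := by
    rcases Nat.eq_zero_or_pos t with h | h
    · subst h
      simp at hYZ
      omega
    · exact h
  refine ⟨hY, hZ, ht, ?_⟩
  intro hpY
  -- valuation of Y
  obtain ⟨f, Y', hY', hYf⟩ := Nat.exists_eq_pow_mul_and_not_dvd hY.ne' p hp.ne_one
  have hf1 : 1 ≤ f := by
    rcases Nat.eq_zero_or_pos f with h | h
    · subst h
      simp at hYf
      exact absurd (hYf ▸ hpY) hY'
    · exact h
  have hft : f < t := by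
    by_contra h
    push Not at h
    have : p ^ t ∣ Y := by
      rw [hYf]
      exact (pow_dvd_pow p h).trans (Dvd.intro _ rfl)
    have := Nat.le_of_dvd hY this
    omega
  have hY'0 : 0 < Y' := by
    rcases Nat.eq_zero_or_pos Y' with h | h
    · subst h
      exact absurd (dvd_zero p) hY'
    · exact h
  -- Z is divisible by p ^ f
  have hZd : p ^ f ∣ Z := by
    have h1 : p ^ f ∣ Y + Z := by
      rw [hYZ]
      exact pow_dvd_pow p hft.le
    exact (Nat.dvd_add_right (by rw [hYf]; exact Dvd.intro _ rfl)).1 h1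
  obtain ⟨Z', hZ'⟩ := hZd
  -- p ^ (f+1) divides 2 Y
  have h1 : p ^ (f + 1) ∣ 2 ^ i * Y * Z + 2 * Y := by
    rw [heq]
    exact (pow_dvd_pow p hft).trans (Dvd.intro _ rfl)
  have h2 : p ^ (f + 1) ∣ 2 ^ i * Y * Z := by
    have : p ^ (f + 1) ∣ p ^ f * p ^ f := by
      rw [← pow_add]
      exact pow_dvd_pow p (by omega)
    refine this.trans ?_
    rw [hYf, hZ']
    exact ⟨2 ^ i * Y' * Z', by ring⟩
  have h3 : p ^ (f + 1) ∣ 2 * Y := (Nat.dvd_add_right h2).1 h1
  rw [hYf, pow_succ, show 2 * (p ^ f * Y') = p ^ f * (2 * Y') by ring] at h3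
  have h4 : p ∣ 2 * Y' := (Nat.mul_dvd_mul_iff_left (pow_pos hp.pos f)).1 h3
  rcases (hp.dvd_mul).1 h4 with h5 | h5
  · have := Nat.le_of_dvd (by norm_num) h5
    omega
  · exact hY' h5

/-- the matrix form of the basic equation -/
theorem matrix_form {p r t i Y Z : ℕ} (hp : p.Prime) (hp2 : p ≠ 2) (hr : 1 ≤ r) (hi : 1 ≤ i)
    (hYZ : Y + Z = p ^ t) (heq : 2 ^ i * Y * Z + 2 * Y = p ^ t * (p ^ r + 1)) :
    2 ≤ i ∧ ∃ c d : ℕ, 0 < c ∧ 0 < d ∧ c + d = 2 ^ (i - 1) ∧ 2 * (c * Y) = p ^ r + 1 ∧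
      2 * (d * Z) + 1 = p ^ r ∧ c * Y = d * Z + 1 := by
  obtain ⟨hY, hZ, ht, hpY⟩ := coprime_of_eq hp hp2 hr hYZ heq
  have hp3 : 3 ≤ p := by
    have := hp.two_le
    omega
  have hpt : 0 < p ^ t := pow_pos hp.pos t
  have hodd : Odd (p ^ t) := (hp.odd_of_ne_two hp2).pow
  have hpr : 3 ≤ p ^ r := by
    calc 3 ≤ p := hp3
      _ = p ^ 1 := (pow_one p).symm
      _ ≤ p ^ r := Nat.pow_le_pow_right hp.pos hr
  have hcop : Nat.Coprime (p ^ t) Y := Nat.Coprime.pow_left t ((Nat.Prime.coprime_iff_not_dvd hp).2 hpY)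
  have h1 : p ^ t ∣ Y * (2 ^ i * Z + 2) := by
    rw [show Y * (2 ^ i * Z + 2) = 2 ^ i * Y * Z + 2 * Y by ring, heq]
    exact Dvd.intro _ rfl
  obtain ⟨C, hC⟩ := hcop.dvd_of_dvd_mul_left h1
  have h2 : Y * C = p ^ r + 1 := by
    have : p ^ t * (Y * C) = p ^ t * (p ^ r + 1) := by
      rw [← heq, show p ^ t * (Y * C) = Y * (p ^ t * C) by ring, ← hC]
      ring
    exact Nat.eq_of_mul_eq_mul_left hpt this
  have hi2 : 2 ≤ i := by
    rcases Nat.lt_or_ge i 2 with h | h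
    · have hi1 : i = 1 := by omega
      subst hi1
      have h3 : p ^ t ∣ 2 * (Z + 1) := ⟨C, by rw [← hC]; ring⟩
      have h4 : p ^ t ∣ Z + 1 := by
        refine Nat.Coprime.dvd_of_dvd_mul_left ?_ h3
        exact Nat.Coprime.symm ((Nat.coprime_two_left).2 hodd)
      have h5 := Nat.le_of_dvd (by omega) h4
      have h6 : Y = 1 := by omega
      have h7 : Z + 1 = p ^ t := by omega
      rw [h6] at h2
      have h8 : p ^ t * 2 = p ^ t * C := by
        rw [← hC, ← h7]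
        ring
      have h9 : 2 = C := Nat.eq_of_mul_eq_mul_left hpt h8
      omega
    · exact h
  refine ⟨hi2, ?_⟩
  obtain ⟨j, rfl⟩ : ∃ j, i = j + 2 := ⟨i - 2, by omega⟩
  have hCeven : Even C := by
    have h3 : Even (p ^ t * C) := by
      rw [← hC]
      refine ⟨2 ^ (j + 1) * Z + 1, by ring⟩
    rcases Nat.even_mul.1 h3 with h4 | h4
    · exact absurd h4 (Nat.not_even_iff_odd.2 hodd)
    · exact h4
  obtain ⟨c, hc⟩ := hCeven
  have hc' : C = 2 * c := by omega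
  subst hc'
  have hcQ : 2 ^ (j + 1) * Z + 1 = p ^ t * c := by
    have : 2 * (2 ^ (j + 1) * Z + 1) = 2 * (p ^ t * c) := by
      calc 2 * (2 ^ (j + 1) * Z + 1) = 2 ^ (j + 2) * Z + 2 := by ring
        _ = p ^ t * (2 * c) := hC
        _ = 2 * (p ^ t * c) := by ring
    omega
  have hc0 : 0 < c := by
    rcases Nat.eq_zero_or_pos c with h | h
    · subst h
      simp at hcQ
    · exact h
  have hNpos : 0 < 2 ^ (j + 1) := by positivity
  have hN2 : 2 ≤ 2 ^ (j + 1) := by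
    calc 2 = 2 ^ 1 := (pow_one 2).symm
      _ ≤ 2 ^ (j + 1) := Nat.pow_le_pow_right (by norm_num) (by omega)
  -- c < N
  have hcN : c < 2 ^ (j + 1) := by
    have h3 : p ^ t * c < p ^ t * 2 ^ (j + 1) := by
      rw [← hcQ, ← hYZ]
      nlinarith
    exact Nat.lt_of_mul_lt_mul_left h3
  obtain ⟨d, hd⟩ : ∃ d, c + d = 2 ^ (j + 1) := ⟨2 ^ (j + 1) - c, by omega⟩
  have hdQ : p ^ t * d + 1 = 2 ^ (j + 1) * Y := by
    have h3 : p ^ t * c + p ^ t * d = 2 ^ (j + 1) * Y + 2 ^ (j + 1) * Z := by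
      rw [← mul_add, hd, ← mul_add, hYZ]
      ring
    omega
  have hdet : c * Y = d * Z + 1 := by
    have h3 : p ^ t * (c * Y) = p ^ t * (d * Z + 1) := by
      calc p ^ t * (c * Y) = (p ^ t * c) * Y := by ring
        _ = (2 ^ (j + 1) * Z + 1) * Y := by rw [hcQ]
        _ = (2 ^ (j + 1) * Y) * Z + Y := by ring
        _ = (p ^ t * d + 1) * Z + Y := by rw [hdQ]
        _ = p ^ t * (d * Z) + (Y + Z) := by ring
        _ = p ^ t * (d * Z) + p ^ t := by rw [hYZ]
        _ = p ^ t * (d * Z + 1) := by ring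
    exact Nat.eq_of_mul_eq_mul_left hpt h3
  refine ⟨c, d, hc0, by omega, by simpa using hd, ?_, ?_, hdet⟩
  · rw [← h2]
    ring
  · have h3 : 2 * (c * Y) = p ^ r + 1 := by
      rw [← h2]
      ring
    omega

end Pool.Agent.Helper20.DS
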