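import Pool.Agent.Helper20.DS.NT

/-!
# Number theory for difference sets with multiplier -1, part 2
-/

namespace Pool.Agent.Helper20.DS

/-- structure of the solutions which are not of Menon type -/
theorem u_form {p r t i Y Z : ℕ} (hp : p.Prime) (hp2 : p ≠ 2) (hr : 1 ≤ r) (hi : 1 ≤ i)
    (hYZ : Y + Z = p ^ t) (heq : 2 ^ i * Y * Z + 2 * Y = p ^ t * (p ^ r + 1)) :
    (i = 2 ∧ t = r) ∨ (3 ≤ i ∧ ∃ e : ℕ, 1 ≤ e ∧ r = t + e ∧ ∃ u : ℤ, Odd u ∧
      4 * u * Y * Z = (Z - Y) * (p : ℤ) ^ e + 1 ∧ (p : ℤ) ^ e = 2 ^ (i - 2) - u * (Z - Y)) := by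
  obtain ⟨hY, hZ, ht, hpY⟩ := coprime_of_eq hp hp2 hr hYZ heq
  obtain ⟨hi2, c, d, hc, hd, hcd, hcY, hdZ, hdet⟩ := matrix_form hp hp2 hr hi hYZ heq
  have hp3 : 3 ≤ p := by
    have := hp.two_le
    omega
  have hodd : Odd p := hp.odd_of_ne_two hp2
  rcases Nat.lt_or_ge i 3 with h3 | h3
  · left
    have hi' : i = 2 := by omega
    subst hi'
    refine ⟨rfl, ?_⟩
    have h1 : c = 1 := by
      have : c + d = 2 := by simpa using hcd
      omega
    have h2 : d = 1 := by
      have : c + d = 2 := by simpa using hcd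
      omega
    subst h1 h2
    have h4 : p ^ t = p ^ r := by omega
    exact Nat.pow_right_injective hp.two_le h4
  right
  refine ⟨h3, ?_⟩
  obtain ⟨j, rfl⟩ : ∃ j, i = j + 3 := ⟨i - 3, by omega⟩
  have hN : c + d = 2 * 2 ^ (j + 1) := by
    have : j + 3 - 1 = (j + 1) + 1 := by omega
    rw [this] at hcd
    rw [hcd]
    ring
  have hce : ¬ Even c := by
    intro h
    have h1 : Even d := by
      have h2 : Even (c + d) := ⟨2 ^ (j + 1), by omega⟩
      exact (Nat.even_add.1 h2).1 h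
    have h2 : Even (c * Y) := h.mul_right _
    have h4 : Even (d * Z) := h1.mul_right _
    rw [hdet] at h2
    exact (Nat.not_even_iff_odd.2 (Even.add_one h4)) h2
  -- integers
  have hQ : (Y : ℤ) + Z = (p : ℤ) ^ t := by exact_mod_cast hYZ
  have hm : (c : ℤ) * Y + d * Z = (p : ℤ) ^ r := by
    have : c * Y + d * Z = p ^ r := by omega
    exact_mod_cast this
  have hdet' : (c : ℤ) * Y - d * Z = 1 := by
    have : (c : ℤ) * Y = d * Z + 1 := by exact_mod_cast hdet
    linarith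
  have hN' : (c : ℤ) + d = 2 * 2 ^ (j + 1) := by exact_mod_cast hN
  set P : ℤ := (p : ℤ) ^ t with hP
  have e1 : ((c : ℤ) - d) * P = 2 + 2 * 2 ^ (j + 1) * (Z - Y) := by
    rw [← hQ, ← hN']
    linear_combination 2 * hdet'
  have e2 : 2 * (p : ℤ) ^ r = 2 * 2 ^ (j + 1) * P - (c - d) * (Z - Y) := by
    rw [← hQ, ← hN', ← hm]
    ring
  have hpZ : Prime (p : ℤ) := Nat.prime_iff_prime_int.1 hp
  -- p does not divide w
  have hpw : ¬ (p : ℤ) ∣ (Z : ℤ) - Y := by
    intro h
    have h1 : (p : ℤ) ∣ (Y : ℤ) + Z := by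
      rw [hQ]
      exact dvd_pow_self _ (by omega)
    have h2 : (p : ℤ) ∣ 2 * (Y : ℤ) := by
      have : 2 * (Y : ℤ) = (Y + Z) - (Z - Y) := by ring
      rw [this]
      exact dvd_sub h1 h
    rcases hpZ.dvd_or_dvd h2 with h4 | h4
    · have : p ∣ 2 := by exact_mod_cast h4
      have := Nat.le_of_dvd (by norm_num) this
      omega
    · exact hpY (by exact_mod_cast h4)
  have hcopw : ∀ k : ℕ, IsCoprime ((p : ℤ) ^ k) ((Z : ℤ) - Y) := by
    intro k
    apply IsCoprime.pow_left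
    exact (Prime.coprime_iff_not_dvd hpZ).2 hpw
  have hcd0 : (c : ℤ) - d ≠ 0 := by
    intro h
    rw [h] at e1
    have h1 : (2 : ℤ) ^ (j + 1) * (Z - Y) = -1 := by linarith
    have h2 : (2 : ℤ) ∣ -1 := by
      rw [← h1, pow_succ]
      exact ⟨2 ^ j * (Z - Y), by ring⟩
    omega
  -- r ≥ t
  have hrt : t ≤ r := by
    by_contra hlt
    push Not at hlt
    have h1 : (p : ℤ) ^ r ∣ ((c : ℤ) - d) * (Z - Y) := by
      have : ((c : ℤ) - d) * (Z - Y) = 2 * 2 ^ (j + 1) * P - 2 * (p : ℤ) ^ r := by linarith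
      rw [this]
      refine dvd_sub ?_ ?_
      · exact (pow_dvd_pow _ hlt.le).trans (Dvd.intro_left _ rfl)
      · exact Dvd.intro_left _ rfl
    have h2 : (p : ℤ) ^ r ∣ (c : ℤ) - d := (hcopw r).dvd_of_dvd_mul_right h1
    have h4 := Int.le_of_dvd (abs_pos.2 hcd0) ((dvd_abs _ _).2 h2)
    have h5 : |(c : ℤ) - d| < c + d := by
      rw [abs_lt]
      have h6 : (0 : ℤ) < c := by exact_mod_cast hc
      have h7 : (0 : ℤ) < d := by exact_mod_cast hd
      constructor <;> linarith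
    have h8 : (c : ℤ) + d ≤ (p : ℤ) ^ r := by
      rw [← hm]
      have h6 : (0 : ℤ) < c := by exact_mod_cast hc
      have h7 : (0 : ℤ) < d := by exact_mod_cast hd
      have h9 : (1 : ℤ) ≤ Y := by exact_mod_cast hY
      have h10 : (1 : ℤ) ≤ Z := by exact_mod_cast hZ
      nlinarith
    linarith
  -- P divides c - d
  have hPcd : P ∣ (c : ℤ) - d := by
    have h1 : P ∣ ((c : ℤ) - d) * (Z - Y) := by
      have : ((c : ℤ) - d) * (Z - Y) = 2 * 2 ^ (j + 1) * P - 2 * (p : ℤ) ^ r := by linarith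
      rw [this]
      refine dvd_sub (Dvd.intro_left _ rfl) ?_
      exact (pow_dvd_pow _ hrt).trans (Dvd.intro_left _ rfl)
    exact (hcopw t).dvd_of_dvd_mul_right h1
  obtain ⟨h, hh⟩ := hPcd
  have hheven : Even h := by
    have h1 : Even ((c : ℤ) - d) := by
      have : (c : ℤ) - d = (c + d) - 2 * d := by ring
      rw [this, hN']
      exact ⟨2 ^ (j + 1) - d, by ring⟩
    rw [hh] at h1
    rcases Int.even_mul.1 h1 with h2 | h2
    · exfalso
      have h4 : Odd P := by
        rw [hP]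
        have : Odd (p : ℤ) := by exact_mod_cast hodd
        exact this.pow
      exact (Int.not_even_iff_odd.2 h4) h2
    · exact h2
  obtain ⟨u, hu⟩ := hheven
  have hu' : (c : ℤ) - d = 2 * u * P := by
    rw [hh, hu]
    ring
  obtain ⟨e, rfl⟩ : ∃ e, r = t + e := ⟨r - t, by omega⟩
  have hPpos : 0 < P := by
    rw [hP]
    have : (0 : ℤ) < p := by exact_mod_cast hp.pos
    positivity
  have e3 : u * (P * P) = 1 + 2 ^ (j + 1) * (Z - Y) := by
    rw [hu'] at e1
    linarith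
  have e4 : (p : ℤ) ^ e = 2 ^ (j + 1) - u * (Z - Y) := by
    rw [hu', pow_add, ← hP] at e2
    have : P * ((p : ℤ) ^ e) = P * (2 ^ (j + 1) - u * (Z - Y)) := by linarith
    exact mul_left_cancel₀ hPpos.ne' this
  have e5 : 4 * u * Y * Z = (Z - Y) * (p : ℤ) ^ e + 1 := by
    have h1 : 4 * u * Y * Z = u * (P * P) - u * ((Z - Y) * (Z - Y)) := by
      rw [← hQ]
      ring
    rw [h1, e3, e4]
    ring
  have hpe : Odd ((p : ℤ) ^ e) := by
    have : Odd (p : ℤ) := by exact_mod_cast hodd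
    exact this.pow
  have huodd : Odd u := by
    by_contra h1
    have h2 : Even u := Int.not_odd_iff_even.1 h1
    have h4 : Even ((p : ℤ) ^ e) := by
      rw [e4]
      refine Even.sub ?_ (h2.mul_right _)
      exact ⟨2 ^ j, by ring⟩
    exact (Int.not_even_iff_odd.2 hpe) h4
  have he : 1 ≤ e := by
    rcases Nat.eq_zero_or_pos e with h0 | h0
    · exfalso
      subst h0
      rw [pow_zero, mul_one] at e5
      have hY1 : (1 : ℤ) ≤ Y := by exact_mod_cast hY
      have hZ1 : (1 : ℤ) ≤ Z := by exact_mod_cast hZ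
      have hu0 : u ≠ 0 := by
        rintro rfl
        exact absurd huodd (by decide)
      have hP3 : (3 : ℤ) ≤ Y + Z := by
        rw [hQ, hP]
        have h1 : 3 ≤ p ^ t := by
          calc 3 ≤ p := hp3
            _ = p ^ 1 := (pow_one p).symm
            _ ≤ p ^ t := Nat.pow_le_pow_right hp.pos ht
        exact_mod_cast h1
      have hYZ1 : (Y : ℤ) + Z - 1 ≤ Y * Z := by nlinarith
      rcases lt_or_gt_of_ne hu0 with h1 | h1
      · have h2 : u ≤ -1 := by omega
        have h4 : 4 * u * Y * Z ≤ -4 * (Y * Z) := by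
          have : (0 : ℤ) ≤ Y * Z := by positivity
          nlinarith
        nlinarith
      · have h2 : 1 ≤ u := by omega
        have h4 : 4 * (Y * Z : ℤ) ≤ 4 * u * Y * Z := by
          have : (0 : ℤ) ≤ Y * Z := by positivity
          nlinarith
        nlinarith
    · exact h0
  exact ⟨e, he, rfl, u, huodd, e5, by simpa using e4⟩

/-- `t < 2 e` -/
theorem t_lt {p t e Y Z : ℕ} {u : ℤ} (hp : p.Prime) (hp2 : p ≠ 2) (hY : 0 < Y) (hZ : 0 < Z)
    (hYZ : Y + Z = p ^ t) (hu : Odd u) (he : 1 ≤ e)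
    (h : 4 * u * Y * Z = (Z - Y) * (p : ℤ) ^ e + 1) : t < 2 * e := by
  have hodd : Odd (p : ℤ) := by exact_mod_cast hp.odd_of_ne_two hp2
  have hp3 : 3 ≤ p := by
    have := hp.two_le
    omega
  have hE3 : (3 : ℤ) ≤ (p : ℤ) ^ e := by
    have : 3 ≤ p ^ e := by
      calc 3 ≤ p := hp3
        _ = p ^ 1 := (pow_one p).symm
        _ ≤ p ^ e := Nat.pow_le_pow_right hp.pos he
    exact_mod_cast this
  -- reduction
  have key : ∀ (a s L σ : ℤ), 1 ≤ a → 1 ≤ s → 1 ≤ L → σ ≤ 1 → -1 ≤ σ → s + L = (p : ℤ) ^ t →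
      4 * a * s * L = (L - s) * (p : ℤ) ^ e + σ → t < 2 * e := by
    intro a s L σ ha hs hL hσ hσ' hsL heq
    set E : ℤ := (p : ℤ) ^ e with hE
    have hEodd : Odd E := hodd.pow
    have h1 : 4 * a * s ≤ E := by
      have : 4 * a * s * L ≤ E * L := by nlinarith
      exact le_of_mul_le_mul_right this (by linarith)
    have h2 : 4 * a * s ≠ E := by
      intro h3
      rw [← h3] at hEodd
      have : Even (4 * a * s) := ⟨2 * a * s, by ring⟩
      exact (Int.not_even_iff_odd.2 hEodd) this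
    have h3 : 4 * a * s ≤ E - 1 := by omega
    have h4 : (p : ℤ) ^ t * (E - 4 * a * s) = 2 * s * E - 4 * a * s * s - σ := by
      rw [← hsL]
      linear_combination -heq
    have h5 : (p : ℤ) ^ t ≤ 2 * s * E - 4 * a * s * s - σ := by
      rw [← h4]
      have : (0 : ℤ) < (p : ℤ) ^ t := by rw [← hsL]; linarith
      nlinarith
    have h6 : 4 * s ≤ E - 1 := by nlinarith
    have h7 : (p : ℤ) ^ t < E * E := by nlinarith
    have h8 : (p : ℤ) ^ t < (p : ℤ) ^ (2 * e) := by
      rw [two_mul, pow_add]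
      exact h7
    have h9 : p ^ t < p ^ (2 * e) := by exact_mod_cast h8
    exact (Nat.pow_lt_pow_iff_right (by omega)).1 h9
  have hY1 : (1 : ℤ) ≤ Y := by exact_mod_cast hY
  have hZ1 : (1 : ℤ) ≤ Z := by exact_mod_cast hZ
  have hQ : (Y : ℤ) + Z = (p : ℤ) ^ t := by exact_mod_cast hYZ
  have hYZpos : (0 : ℤ) < Y * Z := by positivity
  have hu0 : u ≠ 0 := by
    rintro rfl
    exact absurd hu (by decide)
  rcases lt_or_gt_of_ne hu0 with h1 | h1
  · -- u < 0 : s = Z, L = Y
    refine key (-u) Z Y (-1) (by omega) hZ1 hY1 (by norm_num) le_rfl (by linarith) ?_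
    linear_combination -h
  · refine key u Y Z 1 (by omega) hY1 hZ1 le_rfl (by norm_num) hQ ?_
    linear_combination h

/-- if `p - 1` divides `Z`, then `r` is even -/
theorem even_r {p r d Z : ℕ} (hp : p.Prime) (hp2 : p ≠ 2) (hdZ : 2 * (d * Z) + 1 = p ^ r)
    (hZ : (p - 1) ∣ Z) : Even r := by
  by_contra hr
  have hr' : Odd r := Nat.not_even_iff_odd.1 hr
  obtain ⟨q, rfl⟩ : ∃ q, p = q + 1 := ⟨p - 1, by have := hp.two_le; omega⟩
  obtain ⟨Z', hZ'⟩ := hZ
  simp only [Nat.add_sub_cancel] at hZ'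
  have hgeom : (∑ s ∈ Finset.range r, (q + 1) ^ s) * q = (q + 1) ^ r - 1 := by
    have := Nat.geomSum_eq (m := q + 1) (by have := hp.two_le; omega) r
    rw [this, Nat.add_sub_cancel]
    exact Nat.div_mul_cancel (by simpa using Nat.sub_dvd_pow_sub_pow (q + 1) 1 r)
  have hq : 0 < q := by have := hp.two_le; omega
  have h1 : (∑ s ∈ Finset.range r, (q + 1) ^ s) * q = (2 * (d * Z')) * q := by
    rw [hgeom, ← hdZ, hZ', Nat.add_sub_cancel]
    ring
  have h2 := Nat.eq_of_mul_eq_mul_right hq h1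
  have hodd : Odd (q + 1) := hp.odd_of_ne_two hp2
  have h3 : Odd (∑ s ∈ Finset.range r, (q + 1) ^ s) := by
    rw [Finset.odd_sum_iff_odd_card_odd]
    have : (Finset.range r).filter (fun s => Odd ((q + 1) ^ s)) = Finset.range r := by
      apply Finset.filter_true_of_mem
      intro s _
      exact hodd.pow
    rw [this, Finset.card_range]
    exact hr'
  rw [h2] at h3
  exact (Nat.not_even_iff_odd.2 h3) ⟨d * Z', by ring⟩

/-- the case `t = 1` -/
theorem t_one {p r i Y Z c d : ℕ} (hp : p.Prime) (hY : 0 < Y) (hZ : 0 < Z) (hi : 1 ≤ i)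
    (hYZ : Y + Z = p ^ 1) (hcd : c + d = 2 ^ (i - 1)) (hcY : 2 * (c * Y) = p ^ r + 1)
    (hdZ : 2 * (d * Z) + 1 = p ^ r) (hpZ : (p - 1) ∣ Z) :
    Z = p - 1 ∧ Y = 1 ∧ 2 ^ i = 1 + ∑ s ∈ Finset.range (r + 1), p ^ s := by
  rw [pow_one] at hYZ
  have h1 := Nat.le_of_dvd hZ hpZ
  have hZ' : Z = p - 1 := by omega
  have hY' : Y = 1 := by omega
  refine ⟨hZ', hY', ?_⟩
  subst hY'
  obtain ⟨q, rfl⟩ : ∃ q, p = q + 1 := ⟨p - 1, by have := hp.two_le; omega⟩
  simp only [Nat.add_sub_cancel] at hZ'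
  subst hZ'
  have hq : 0 < Z := hZ
  have hgeom : (∑ s ∈ Finset.range r, (Z + 1) ^ s) * Z = (Z + 1) ^ r - 1 := by
    have := Nat.geomSum_eq (m := Z + 1) (by have := hp.two_le; omega) r
    rw [this, Nat.add_sub_cancel]
    exact Nat.div_mul_cancel (by simpa using Nat.sub_dvd_pow_sub_pow (Z + 1) 1 r)
  have h2 : (∑ s ∈ Finset.range r, (Z + 1) ^ s) * Z = (2 * d) * Z := by
    rw [hgeom, ← hdZ, Nat.add_sub_cancel]
    ring
  have h3 := Nat.eq_of_mul_eq_mul_right hq h2
  obtain ⟨j, rfl⟩ : ∃ j, i = j + 1 := ⟨i - 1, by omega⟩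
  simp only [Nat.add_sub_cancel] at hcd
  rw [Finset.sum_range_succ, h3, pow_succ, ← hcd]
  omega

/-- `p ^ 2 + p + 2` is a power of two only for `p = 5` (and `p = 2`) -/
theorem two_pow_eq {p i : ℕ} (hp : p.Prime) (hp2 : p ≠ 2) (h : 2 ^ i = p ^ 2 + p + 2) :
    p = 5 ∧ i = 5 := by
  have hp3 : 3 ≤ p := by
    have := hp.two_le
    omega
  rcases Nat.even_or_odd i with ⟨j, hj⟩ | ⟨j, hj⟩
  · -- i = 2 j
    exfalso
    subst hj
    have h1 : (2 ^ (j + 1)) * (2 ^ (j + 1)) = (2 * p + 1) * (2 * p + 1) + 7 := by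
      have : (2 ^ (j + 1)) * (2 ^ (j + 1)) = 4 * 2 ^ (j + j) := by
        rw [← pow_add, show j + 1 + (j + 1) = (j + j) + 2 by ring, pow_add]
        ring
      rw [this, h]
      ring
    set s := 2 ^ (j + 1)
    have h2 : 2 * p + 1 < s := by nlinarith
    nlinarith
  · subst hj
    -- p (p+1) = 2 (2^j - 1) (2^j + 1)
    have hj1 : 1 ≤ j := by
      rcases Nat.eq_zero_or_pos j with h0 | h0
      · subst h0
        simp at h
        nlinarith
      · exact h0
    have hpos : 0 < 2 ^ j := by positivity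
    obtain ⟨x, hx⟩ : ∃ x, 2 ^ j = x + 1 := ⟨2 ^ j - 1, by omega⟩
    have h1 : p * (p + 1) = 2 * (x * (x + 2)) := by
      have h2 : 2 ^ (2 * j + 1) = 2 * (x + 1) * (x + 1) := by
        rw [pow_succ, two_mul, pow_add, hx]
        ring
      rw [h2] at h
      nlinarith
    have h2 : p ∣ 2 * (x * (x + 2)) := by
      rw [← h1]
      exact Dvd.intro _ rfl
    have h3 : p ∣ x ∨ p ∣ x + 2 := by
      rcases hp.dvd_mul.1 h2 with h4 | h4
      · have := Nat.le_of_dvd (by norm_num) h4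
        omega
      · exact hp.dvd_mul.1 h4
    have hx0 : 0 < x := by
      rcases Nat.eq_zero_or_pos x with h0 | h0
      · subst h0
        simp at h1
        omega
      · exact h0
    have h4 : p ≤ x + 2 := by
      rcases h3 with h4 | h4
      · exact (Nat.le_of_dvd hx0 h4).trans (by omega)
      · exact Nat.le_of_dvd (by omega) h4
    have h5 : x ≤ 3 := by
      by_contra h6
      push Not at h6
      nlinarith
    have h6 : x = 3 := by
      interval_cases x
      · nlinarith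
      · exfalso
        -- x = 2 : p (p+1) = 16
        have : p ≤ 4 := h4
        interval_cases p <;> omega
      · rfl
    subst h6
    have h7 : j = 2 := by
      have : 2 ^ j = 2 ^ 2 := by rw [hx]; norm_num
      exact Nat.pow_right_injective (le_refl 2) this
    subst h7
    have h8 : p ≤ 5 := h4
    interval_cases p <;> simp_all

end Pool.Agent.Helper20.DS
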