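import Pool.Agent.Helper20.DS.NT2
import Pool.Agent.Helper20.DS.Lucas

/-!
# Number theory for difference sets with multiplier -1, part 3
-/

namespace Pool.Agent.Helper20.DS

theorem not_two_pow {x k : ℕ} (h : 2 ^ k = x) (hx : x = 7 ∨ x = 20 ∨ x = 61 ∨ x = 46 ∨ x = 182) : False := by
  have hk : k < 8 := by
    by_contra h1
    push Not at h1
    have h2 : 2 ^ 8 ≤ 2 ^ k := Nat.pow_le_pow_right (by norm_num) h1
    rw [h] at h2
    norm_num at h2
    omega
  interval_cases k <;> norm_num at h <;> omega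

/-- the prime 3 -/
theorem three_excl {r t i Y Z c d : ℕ} (hY : 0 < Y) (hZ : 0 < Z) (ht : 1 ≤ t) (htr : 3 * t < 2 * r)
    (hr : r < 6) (hYZ : Y + Z = 3 ^ t) (hcd : c + d = 2 ^ (i - 1))
    (hcY : 2 * (c * Y) = 3 ^ r + 1) (hdZ : 2 * (d * Z) + 1 = 3 ^ r) : False := by
  have hr2 : 2 ≤ r := by omega
  have ht3 : t ≤ 3 := by omega
  have key : ∀ x, c + d = x → (x = 7 ∨ x = 20 ∨ x = 61 ∨ x = 46 ∨ x = 182) → False :=
    fun x hx h => not_two_pow (hcd.symm.trans hx) h
  have hZ' : Z = 3 ^ t - Y := by omega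
  have hY' : Y < 3 ^ t := by omega
  clear hcd
  subst hZ'
  interval_cases r
  · have : t = 1 := by omega
    subst this
    norm_num at hY' hcY hdZ hYZ
    interval_cases Y
    · norm_num at hdZ
      exact key 7 (by omega) (by norm_num)
    · omega
  · have : t = 1 := by omega
    subst this
    norm_num at hY' hcY hdZ hYZ
    interval_cases Y
    · norm_num at hdZ
      omega
    · norm_num at hdZ
      exact key 20 (by omega) (by norm_num)
  · have : t = 1 ∨ t = 2 := by omega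
    rcases this with rfl | rfl
    · norm_num at hY' hcY hdZ hYZ
      interval_cases Y
      · norm_num at hdZ
        exact key 61 (by omega) (by norm_num)
      · omega
    · norm_num at hY' hcY hdZ hYZ
      interval_cases Y
      · norm_num at hdZ
        exact key 46 (by omega) (by norm_num)
      all_goals omega
  · have : t = 1 ∨ t = 2 ∨ t = 3 := by omega
    rcases this with rfl | rfl | rfl
    · norm_num at hY' hcY hdZ hYZ
      interval_cases Y
      · norm_num at hdZ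
        omega
      · norm_num at hdZ
        exact key 182 (by omega) (by norm_num)
    · norm_num at hY' hcY hdZ hYZ
      interval_cases Y <;> norm_num at hdZ <;> omega
    · norm_num at hY' hcY hdZ hYZ
      interval_cases Y <;> norm_num at hdZ <;> omega

/-- main number theoretic statement -/
theorem nt_final {p r t i Y Z : ℕ} (hp : p.Prime) (hp2 : p ≠ 2) (hr : 1 ≤ r) (hi : 1 ≤ i)
    (hYZ : Y + Z = p ^ t) (heq : 2 ^ i * Y * Z + 2 * Y = p ^ t * (p ^ r + 1))
    (hdiv : 5 ≤ p → (p - 1) ∣ Z) (hne : ¬ (i = 2 ∧ t = r)) :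
    1 ≤ t ∧ 3 * t < 2 * r ∧ 3 ≤ i ∧ (5 ≤ p → Even r) ∧
      (5 ≤ p → t = 1 → 2 ^ i = 1 + ∑ s ∈ Finset.range (r + 1), p ^ s) ∧
      (r < 6 → p = 5 ∧ r = 2 ∧ t = 1 ∧ i = 5 ∧ Y = 1 ∧ Z = 4) := by
  obtain ⟨hY, hZ, ht, hpY⟩ := coprime_of_eq hp hp2 hr hYZ heq
  obtain ⟨hi2, c, d, hc, hd, hcd, hcY, hdZ, hdet⟩ := matrix_form hp hp2 hr hi hYZ heq
  rcases u_form hp hp2 hr hi hYZ heq with h | ⟨hi3, e, he, hre, u, hu, h4, h5⟩
  · exact absurd h hne
  have hte := t_lt hp hp2 hY hZ hYZ hu he h4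
  have htr : 3 * t < 2 * r := by omega
  have hev : 5 ≤ p → Even r := fun h => even_r hp hp2 hdZ (hdiv h)
  have hone : 5 ≤ p → t = 1 → Z = p - 1 ∧ Y = 1 ∧ 2 ^ i = 1 + ∑ s ∈ Finset.range (r + 1), p ^ s := by
    intro h1 h2
    subst h2
    exact t_one hp hY hZ hi hYZ hcd hcY hdZ (hdiv h1)
  refine ⟨ht, htr, hi3, hev, fun h1 h2 => (hone h1 h2).2.2, ?_⟩
  intro hr6
  rcases Nat.lt_or_ge p 5 with hp5 | hp5
  · exfalso
    have h3 : p = 3 := by
      have := hp.two_le
      interval_cases p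
      · omega
      · rfl
      · exact absurd hp (by norm_num)
    subst h3
    exact three_excl hY hZ ht htr hr6 hYZ hcd hcY hdZ
  · have hev' := hev hp5
    have hr24 : r = 2 ∨ r = 4 := by
      obtain ⟨s, hs⟩ := hev'
      omega
    rcases hr24 with rfl | rfl
    · have ht1 : t = 1 := by omega
      subst ht1
      obtain ⟨hZ', hY', hpow⟩ := hone hp5 rfl
      have hpow' : 2 ^ i = p ^ 2 + p + 2 := by
        rw [hpow]
        simp [Finset.sum_range_succ]
        ring
      obtain ⟨h6, h7⟩ := two_pow_eq hp hp2 hpow'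
      subst h6
      exact ⟨rfl, rfl, rfl, h7, hY', by simpa using hZ'⟩
    · exfalso
      have ht12 : t = 1 ∨ t = 2 := by omega
      rcases ht12 with rfl | rfl
      · obtain ⟨hZ', hY', hpow⟩ := hone hp5 rfl
        have hpow' : 2 ^ i = p ^ 4 + p ^ 3 + p ^ 2 + p + 2 := by
          rw [hpow]
          simp [Finset.sum_range_succ]
          ring
        obtain ⟨j, rfl⟩ : ∃ j, i = j + 3 := ⟨i - 3, by omega⟩
        obtain ⟨q, hq⟩ := hp.odd_of_ne_two hp2
        subst hq
        have h8 : (2 * q + 1) ^ 4 + (2 * q + 1) ^ 3 + (2 * q + 1) ^ 2 + (2 * q + 1) + 2 =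
            4 * (4 * q ^ 4 + 8 * q ^ 3 + 2 * q ^ 3 + 6 * q ^ 2 + 3 * q ^ 2 + q ^ 2 + 2 * q + q + q + q + 1) + 2 := by
          ring
        rw [h8, pow_add] at hpow'
        omega
      · have he2 : e = 2 := by omega
        subst he2
        exact lucas_excl hp hp2 hY hZ hYZ hu h4 (hdiv hp5)

end Pool.Agent.Helper20.DS
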